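import Pool.Agent.MT100G.Stmts
import Pool.Agent.Helper27_MT.Trg
import Pool.Agent.Helper65_MT100.Val

/-! MT100-GEN, module FPS: formal relations between the translated fundamental matrices persist
under the product of the symplectic groups. -/

set_option autoImplicit false

namespace Pool.Agent.MT100G.H47

open Matrix Polynomial Pool.Agent.MT100 Pool.Agent.Helper78_MT Pool.Agent.Helper65MT100

/-! ### exponentials -/

theorem eN_map {d : Type*} [Fintype d] [DecidableEq d] (N : Matrix d d ℤ) {R S : Type*} [CommRing R]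
    [CommRing S] [Algebra ℚ R] [Algebra ℚ S] (f : R →+* S) (x : R) :
    (eN N x).map f = eN N (f x) := by
  ext i j
  unfold eN
  rw [Matrix.map_apply, Matrix.sum_apply, Matrix.sum_apply, map_sum]
  refine Finset.sum_congr rfl fun t _ => ?_
  rw [Matrix.smul_apply, Matrix.smul_apply, Matrix.map_apply, Matrix.map_apply, smul_eq_mul,
    smul_eq_mul, map_mul, map_intCast]
  have h1 : f (((t.factorial : ℚ)⁻¹) • x ^ t) = ((t.factorial : ℚ)⁻¹) • f x ^ t := by
    rw [map_rat_smul, map_pow]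
  rw [h1]

theorem eN_aut {d : Type*} [Fintype d] [DecidableEq d] {N : Matrix d d ℤ} {J0 : Matrix d d ℚ}
    (hN : IsNilpotent N)
    (hf : (N.map (fun x => (x : ℚ)))ᵀ * J0 + J0 * N.map (fun x => (x : ℚ)) = 0) (x : ℂ) :
    eN N x ∈ Aut J0 := by
  set NC : Matrix d d ℂ := N.map (fun y : ℤ => (y : ℂ)) with hNC
  set JC : Matrix d d ℂ := J0.map (algebraMap ℚ ℂ) with hJC
  have h1 : NCᵀ * JC = JC * (-NC) := by
    have h2 := congrArg (fun M : Matrix d d ℚ => M.map (algebraMap ℚ ℂ)) hf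
    have h3 : (N.map (fun x => (x : ℚ))).map (algebraMap ℚ ℂ) = NC := by
      ext i j
      rw [Matrix.map_apply, Matrix.map_apply, hNC, Matrix.map_apply, map_intCast]
    rw [Matrix.map_add _ (map_add _), Matrix.map_mul, Matrix.map_mul, ← Matrix.transpose_map, h3,
      Matrix.map_zero _ (map_zero _)] at h2
    rw [mul_neg]
    exact eq_neg_of_add_eq_zero_left h2
  have h2 : ∀ j : ℕ, (NC ^ j)ᵀ * JC = JC * (-NC) ^ j := by
    intro j
    induction j with
    | zero => rw [pow_zero, pow_zero, Matrix.transpose_one, one_mul, mul_one]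
    | succ j ih =>
      rw [pow_succ, Matrix.transpose_mul, Matrix.mul_assoc, ih, ← Matrix.mul_assoc, h1,
        Matrix.mul_assoc, ← pow_succ']
  have h3 : ∀ j : ℕ, (N ^ j).map (fun y : ℤ => (y : ℂ)) = NC ^ j := fun j =>
    (H27.NR_pow N ℂ j).symm
  have h4 : (eN N x)ᵀ * JC = JC * eN N (-x) := by
    unfold eN
    rw [Matrix.transpose_sum, Finset.sum_mul, Finset.mul_sum]
    refine Finset.sum_congr rfl fun j _ => ?_
    have h5 : (-NC) ^ j = ((-1 : ℂ) ^ j) • NC ^ j := by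
      rw [← _root_.smul_pow, neg_one_smul]
    have h6 : (-x) ^ j = (-1 : ℂ) ^ j * x ^ j := neg_pow x j
    rw [Matrix.transpose_smul, Matrix.smul_mul, h3, h2, h5, Matrix.mul_smul, Matrix.mul_smul,
      smul_smul, h6, Rat.smul_def, Rat.smul_def]
    refine congrArg (fun c : ℂ => c • (JC * NC ^ j)) ?_
    ring
  show (eN N x)ᵀ * JC * eN N x = JC
  rw [h4, Matrix.mul_assoc, H27.eN_mul hN, neg_add_cancel, H27.eN_zero hN, mul_one]

theorem aut_mul {d : Type*} [Fintype d] {J0 : Matrix d d ℚ} {a b : Matrix d d ℂ}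
    (ha : a ∈ Aut J0) (hb : b ∈ Aut J0) : a * b ∈ Aut J0 := by
  have ha' : aᵀ * J0.map (algebraMap ℚ ℂ) * a = J0.map (algebraMap ℚ ℂ) := ha
  have hb' : bᵀ * J0.map (algebraMap ℚ ℂ) * b = J0.map (algebraMap ℚ ℂ) := hb
  show (a * b)ᵀ * J0.map (algebraMap ℚ ℂ) * (a * b) = J0.map (algebraMap ℚ ℂ)
  calc (a * b)ᵀ * J0.map (algebraMap ℚ ℂ) * (a * b)
      = bᵀ * (aᵀ * J0.map (algebraMap ℚ ℂ) * a) * b := by
        rw [Matrix.transpose_mul]
        simp only [Matrix.mul_assoc]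
    _ = J0.map (algebraMap ℚ ℂ) := by rw [ha', hb']

/-! ### the value of the solution at the translated point -/

theorem tv_eq (h1 : BasStmt) (h2 : VagStmt) {d : Type} [Fintype d] [DecidableEq d] (F : Fam d)
    (κ : ℕ) : ∀ᶠ w : ℝ in Filter.atTop,
      YH F.H F.N ((w : ℂ) - κ) = tv F κ w * eN F.N (-(Complex.log w)) := by
  obtain ⟨R, hR, -, hB⟩ := h1 d F.H F.K F.N F.q F.B F.sys
  have hV := h2 d F.H F.N F.sys.nil F.sys.gH X (by rw [natDegree_X]; exact one_pos)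
    (by rw [leadingCoeff_X]; exact one_pos) κ
  filter_upwards [hV, Filter.eventually_gt_atTop (R + κ), Filter.eventually_gt_atTop 0]
    with w hw hwR hw0
  have hpv : pv X (w - κ) = w - κ := by
    unfold pv
    rw [Polynomial.map_X, eval_X]
  have hb := hB (w - κ) (by linarith)
  rw [hpv, natDegree_X, leadingCoeff_X, Nat.cast_one, one_mul, Rat.cast_one, Real.log_one,
    add_zero] at hw
  rw [hw, Matrix.map_mul, eN_map] at hb
  have hc : ((w : ℂ) - κ) = (((w - κ : ℝ)) : ℂ) := by push_cast; ring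
  rw [hc, hb, map_neg]
  have hl : (algebraMap ℝ ℂ) (Real.log w) = Complex.log w := by
    rw [← Complex.ofReal_log hw0.le]
    rfl
  rw [hl]
  rfl

/-! ### evaluation of the formal relation -/

theorem prod_ev (hE : E3) {ι : Type*} (s : Finset ι) (f : ι → PowerSeries ℚ) {x : ℝ}
    (h : ∀ i ∈ s, Helper65MT100.Ab (f i) x) :
    Helper65MT100.Ab (∏ i ∈ s, f i) x ∧ ev (∏ i ∈ s, f i) x = ∏ i ∈ s, ev (f i) x := by
  classical
  induction s using Finset.induction_on with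
  | empty => exact ⟨by rw [Finset.prod_empty]; exact ab_one x, by
      rw [Finset.prod_empty, Finset.prod_empty, ev_one]⟩
  | insert a s ha ih =>
    have h1 := ih fun i hi => h i (Finset.mem_insert_of_mem hi)
    have h2 := hE (f a) (∏ i ∈ s, f i) x (h a (Finset.mem_insert_self a s)) h1.1
    rw [Finset.prod_insert ha, Finset.prod_insert ha]
    exact ⟨h2.1, by rw [h2.2.2.2, h1.2]⟩

theorem ab_poly (p : ℚ[X]) (x : ℝ) : Helper65MT100.Ab (p : PowerSeries ℚ) x := by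
  unfold Helper65MT100.Ab
  refine summable_of_ne_finset_zero (s := Finset.range (p.natDegree + 1)) fun k hk => ?_
  rw [Finset.mem_range] at hk
  rw [Polynomial.coeff_coe, Polynomial.coeff_eq_zero_of_natDegree_lt (by omega), Rat.cast_zero,
    abs_zero, zero_mul]

theorem tg_ab (h4 : EvaStmt) {d : Type} [Fintype d] [DecidableEq d] (F : Fam d)
    (κ : ℕ) (i j : d) : ∀ᶠ w : ℝ in Filter.atTop, Helper65MT100.Ab (Tg F κ i j) w⁻¹ := by
  obtain ⟨K, N, q, B, hG⟩ := H27.trg d F.H F.K F.N F.q F.B F.sys X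
    (by rw [natDegree_X]; exact one_pos) κ
  obtain ⟨δ, hδ, hs⟩ := h4.1 _ (hG.gH i j)
  have ht : Filter.Tendsto (fun w : ℝ => w⁻¹) Filter.atTop (nhds 0) := tendsto_inv_atTop_zero
  filter_upwards [ht.eventually (Metric.ball_mem_nhds (0 : ℝ) hδ)] with w hw
  have hw' : |w⁻¹| < δ := by
    have := Metric.mem_ball.mp hw
    rwa [Real.dist_eq, sub_zero] at this
  exact hs _ hw'

theorem rel_ev (h4 : EvaStmt) {d : Type} [Fintype d] [DecidableEq d] (F : Fam d)
    {ι : Type} [Fintype ι] [DecidableEq ι] (κ : ι → ℕ) (k : ℕ)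
    (p : (ι × Fin k → d) → (ι × Fin k → d) → ℚ[X])
    (hp : ∑ β, ∑ α, ((p β α : ℚ[X]) : PowerSeries ℚ) * ∏ s, Tg F (κ s.1) (β s) (α s) = 0) :
    ∀ᶠ w : ℝ in Filter.atTop, ∑ β, ∑ α, (p β α).eval₂ (algebraMap ℚ ℂ) ((w : ℂ)⁻¹) *
      ∏ s, tv F (κ s.1) w (β s) (α s) = 0 := by
  have hE : E3 := fun f g x hf hg => h4.2.2.1 f g x hf hg
  have hA : ∀ᶠ w : ℝ in Filter.atTop, ∀ (i : ι) (a b : d),
      Helper65MT100.Ab (Tg F (κ i) a b) w⁻¹ := by
    rw [Filter.eventually_all]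
    intro i
    rw [Filter.eventually_all]
    intro a
    rw [Filter.eventually_all]
    intro b
    exact tg_ab h4 F (κ i) a b
  filter_upwards [hA] with w hw
  have h1 : ∀ β α : ι × Fin k → d, Helper65MT100.Ab (((p β α : ℚ[X]) : PowerSeries ℚ) *
      ∏ s, Tg F (κ s.1) (β s) (α s)) w⁻¹ ∧ ev (((p β α : ℚ[X]) : PowerSeries ℚ) *
      ∏ s, Tg F (κ s.1) (β s) (α s)) w⁻¹ = ((p β α).map (algebraMap ℚ ℝ)).eval w⁻¹ *
        ∏ s, ev (Tg F (κ s.1) (β s) (α s)) w⁻¹ := by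
    intro β α
    have h2 := prod_ev hE Finset.univ (fun s : ι × Fin k => Tg F (κ s.1) (β s) (α s))
      (x := w⁻¹) (fun s _ => hw s.1 (β s) (α s))
    have h3 := hE _ _ w⁻¹ (ab_poly (p β α) w⁻¹) h2.1
    refine ⟨h3.1, ?_⟩
    rw [h3.2.2.2, h2.2, h4.2.1]
  have h2 := fun β : ι × Fin k → d => sum_ev hE Finset.univ
    (fun α : ι × Fin k → d => ((p β α : ℚ[X]) : PowerSeries ℚ) *
      ∏ s, Tg F (κ s.1) (β s) (α s)) (x := w⁻¹) (fun α _ => (h1 β α).1)
  have h3 := sum_ev hE Finset.univ (fun β : ι × Fin k → d => ∑ α : ι × Fin k → d,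
    ((p β α : ℚ[X]) : PowerSeries ℚ) * ∏ s, Tg F (κ s.1) (β s) (α s)) (x := w⁻¹)
    (fun β _ => (h2 β).1)
  rw [hp, ev_zero] at h3
  have h5 : (0 : ℝ) = ∑ β : ι × Fin k → d, ∑ α : ι × Fin k → d,
      ((p β α).map (algebraMap ℚ ℝ)).eval w⁻¹ *
        ∏ s, ev (Tg F (κ s.1) (β s) (α s)) w⁻¹ := by
    rw [h3.2]
    refine Finset.sum_congr rfl fun β _ => ?_
    rw [(h2 β).2]
    exact Finset.sum_congr rfl fun α _ => (h1 β α).2
  have h6 := congrArg (algebraMap ℝ ℂ) h5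
  rw [map_zero, map_sum] at h6
  rw [h6]
  refine Finset.sum_congr rfl fun β _ => ?_
  rw [map_sum]
  refine Finset.sum_congr rfl fun α _ => ?_
  rw [map_mul, map_prod]
  have h7 : (p β α).eval₂ (algebraMap ℚ ℂ) ((w : ℂ)⁻¹) =
      algebraMap ℝ ℂ (((p β α).map (algebraMap ℚ ℝ)).eval w⁻¹) := by
    rw [eval_map, hom_eval₂]
    have h8 : (algebraMap ℝ ℂ) w⁻¹ = (w : ℂ)⁻¹ := by
      rw [map_inv₀]
      rfl
    rw [h8]
    rfl
  rw [h7]
  rfl

/-! ### the polynomial -/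

/-- the matrix of variables -/
noncomputable def Ym {ι d : Type} (i : ι) : Matrix d d (MvPolynomial (Bool ⊕ (ι × d × d)) ℂ) :=
  fun a b => MvPolynomial.X (Sum.inr (i, a, b))

/-- the matrix of variables times the exponential -/
noncomputable def Yn {ι d : Type} [Fintype d] [DecidableEq d] (N : Matrix d d ℤ) (i : ι) :
    Matrix d d (MvPolynomial (Bool ⊕ (ι × d × d)) ℂ) :=
  Ym i * eN N (MvPolynomial.X (Sum.inl true))

/-- the polynomial relation -/
noncomputable def Ph {ι d : Type} [Fintype ι] [DecidableEq ι] [Fintype d] [DecidableEq d]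
    (N : Matrix d d ℤ) (k D : ℕ) (p : (ι × Fin k → d) → (ι × Fin k → d) → ℚ[X]) :
    MvPolynomial (Bool ⊕ (ι × d × d)) ℂ :=
  ∑ β, ∑ α, ((p β α).reflect D).eval₂ (algebraMap ℚ _) (MvPolynomial.X (Sum.inl false)) *
    ∏ s : ι × Fin k, Yn N s.1 (β s) (α s)

theorem ph_eval {ι d : Type} [Fintype ι] [DecidableEq ι] [Fintype d] [DecidableEq d]
    (N : Matrix d d ℤ) (k D : ℕ) (p : (ι × Fin k → d) → (ι × Fin k → d) → ℚ[X])
    (hD : ∀ β α, (p β α).natDegree ≤ D) (w l : ℂ) (hw : w ≠ 0) (Y : ι → Matrix d d ℂ) :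
    MvPolynomial.eval (vr w l Y) (Ph N k D p) =
      w ^ D * ∑ β, ∑ α, (p β α).eval₂ (algebraMap ℚ ℂ) w⁻¹ *
        ∏ s, (Y s.1 * eN N l) (β s) (α s) := by
  unfold Ph
  rw [map_sum, Finset.mul_sum]
  refine Finset.sum_congr rfl fun β _ => ?_
  rw [map_sum, Finset.mul_sum]
  refine Finset.sum_congr rfl fun α _ => ?_
  rw [map_mul, map_prod, ← mul_assoc]
  have h1 : MvPolynomial.eval (vr w l Y) (((p β α).reflect D).eval₂ (algebraMap ℚ _)
      (MvPolynomial.X (Sum.inl false))) = w ^ D * (p β α).eval₂ (algebraMap ℚ ℂ) w⁻¹ := by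
    rw [hom_eval₂, MvPolynomial.eval_X]
    have h2 : (MvPolynomial.eval (vr w l Y)).comp (algebraMap ℚ
        (MvPolynomial (Bool ⊕ (ι × d × d)) ℂ)) = algebraMap ℚ ℂ := RingHom.ext_rat _ _
    have h3 : vr w l Y (Sum.inl false) = w := rfl
    rw [h2, h3]
    let _ : Invertible (w⁻¹) := invertibleOfNonzero (inv_ne_zero hw)
    have h4 := Polynomial.eval₂_reflect_mul_pow (algebraMap ℚ ℂ) (w⁻¹) D (p β α) (hD β α)
    rw [invOf_eq_inv, inv_inv] at h4
    rw [← h4, inv_pow, mul_comm, mul_assoc, inv_mul_cancel₀ (pow_ne_zero D hw), mul_one]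
  rw [h1]
  refine congrArg _ (Finset.prod_congr rfl fun s _ => ?_)
  unfold Yn
  rw [Matrix.mul_apply, Matrix.mul_apply, map_sum]
  refine Finset.sum_congr rfl fun c _ => ?_
  rw [map_mul]
  have h5 : MvPolynomial.eval (vr w l Y) (Ym s.1 (β s) c) = Y s.1 (β s) c := by
    unfold Ym
    rw [MvPolynomial.eval_X]
    rfl
  have h6 := congrFun (congrFun (eN_map N (MvPolynomial.eval (vr w l Y))
    (MvPolynomial.X (Sum.inl true))) c) (α s)
  rw [Matrix.map_apply, MvPolynomial.eval_X] at h6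
  rw [h5, h6]
  rfl

/-- FPS -/
theorem fps (h1 : BasStmt) (h2 : VagStmt) (h3 : PrsStmt) (h4 : EvaStmt) : FpsStmt := by
  intro d _ _ F hd ι _ _ κ hκ k
  obtain ⟨R0, hR⟩ := h3 d F hd ι κ hκ
  have hT : ∀ᶠ w : ℝ in Filter.atTop, ∀ i : ι,
      YH F.H F.N ((w : ℂ) - κ i) = tv F (κ i) w * eN F.N (-(Complex.log w)) := by
    rw [Filter.eventually_all]
    intro i
    exact tv_eq h1 h2 F (κ i)
  obtain ⟨R1, hR1⟩ := Filter.eventually_atTop.mp hT
  refine ⟨max R0 (max R1 0), fun p hp w hw g hg => ?_⟩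
  have hw0 : R0 < w := lt_of_le_of_lt (le_max_left _ _) hw
  have hw1 : R1 ≤ w := (lt_of_le_of_lt ((le_max_left _ _).trans (le_max_right _ _)) hw).le
  have hw2 : 0 < w := lt_of_le_of_lt ((le_max_right _ _).trans (le_max_right _ _)) hw
  obtain ⟨D, hD⟩ : ∃ D : ℕ, ∀ β α, (p β α).natDegree ≤ D :=
    ⟨Finset.univ.sup fun x : (ι × Fin k → d) × (ι × Fin k → d) => (p x.1 x.2).natDegree,
      fun β α => Finset.le_sup (f := fun x : (ι × Fin k → d) × (ι × Fin k → d) =>
        (p x.1 x.2).natDegree) (Finset.mem_univ (β, α))⟩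
  have hnil := F.sys.nil
  have hΦ : ∀ᶠ w : ℝ in Filter.atTop, MvPolynomial.eval (vr (w : ℂ) (Complex.log w)
      fun i => YH F.H F.N ((w : ℂ) - κ i)) (Ph F.N k D p) = 0 := by
    filter_upwards [hT, rel_ev h4 F κ k p hp, Filter.eventually_gt_atTop 0] with x hx1 hx2 hx0
    rw [ph_eval F.N k D p hD _ _ (by exact_mod_cast hx0.ne')]
    have h5 : ∀ s : ι × Fin k, YH F.H F.N ((x : ℂ) - κ s.1) * eN F.N (Complex.log x) =
        tv F (κ s.1) x := by
      intro s
      rw [hx1, Matrix.mul_assoc, H27.eN_mul hnil, neg_add_cancel, H27.eN_zero hnil, mul_one]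
    simp only [h5]
    rw [hx2, mul_zero]
  have h5 := hR (Ph F.N k D p) hΦ w hw0
    (fun i => eN F.N (Complex.log w) * g i * eN F.N (-(Complex.log w)))
    (fun i => aut_mul (aut_mul (eN_aut hnil F.flat _) (hg i)) (eN_aut hnil F.flat _))
  have hwc : (w : ℂ) ≠ 0 := by exact_mod_cast hw2.ne'
  rw [ph_eval F.N k D p hD _ _ hwc] at h5
  have h6 : ∀ s : ι × Fin k, YH F.H F.N ((w : ℂ) - κ s.1) *
      (eN F.N (Complex.log w) * g s.1 * eN F.N (-(Complex.log w))) * eN F.N (Complex.log w) =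
        tv F (κ s.1) w * g s.1 := by
    intro s
    have h7 : eN F.N (-(Complex.log (w : ℂ))) * eN F.N (Complex.log w) = 1 := by
      rw [H27.eN_mul hnil, neg_add_cancel, H27.eN_zero hnil]
    rw [hR1 w hw1 s.1]
    calc tv F (κ s.1) w * eN F.N (-(Complex.log w)) *
          (eN F.N (Complex.log w) * g s.1 * eN F.N (-(Complex.log w))) * eN F.N (Complex.log w)
        = tv F (κ s.1) w * (eN F.N (-(Complex.log w)) * eN F.N (Complex.log w)) * g s.1 *
          (eN F.N (-(Complex.log w)) * eN F.N (Complex.log w)) := by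
          simp only [Matrix.mul_assoc]
      _ = tv F (κ s.1) w * g s.1 := by rw [h7, mul_one, mul_one]
  simp only [h6] at h5
  exact (mul_eq_zero.mp h5).resolve_left (pow_ne_zero D hwc)

end Pool.Agent.MT100G.H47
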