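import Pool.Agent.MT100G.Stmts

/-!
# MT100-GEN, module UNI: uniqueness of the solutions of a linear differential equation
-/

set_option autoImplicit false

namespace Pool.Agent.MT100G.H47

open Matrix

variable {d : Type} [Fintype d] [DecidableEq d]

theorem hd_mul {M N : ℂ → Matrix d d ℂ} {M' N' : Matrix d d ℂ} {w : ℂ}
    (hM : ∀ i j, HasDerivAt (fun x => M x i j) (M' i j) w)
    (hN : ∀ i j, HasDerivAt (fun x => N x i j) (N' i j) w) (i j : d) :
    HasDerivAt (fun x => (M x * N x) i j) ((M' * N w + M w * N') i j) w := by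
  simp only [Matrix.mul_apply, Matrix.add_apply, ← Finset.sum_add_distrib]
  exact HasDerivAt.fun_sum fun k _ => (hM i k).mul (hN k j)

theorem diff_det {M : ℂ → Matrix d d ℂ} {w : ℂ}
    (hM : ∀ i j, DifferentiableAt ℂ (fun x => M x i j) w) :
    DifferentiableAt ℂ (fun x => (M x).det) w := by
  simp only [Matrix.det_apply]
  refine DifferentiableAt.fun_sum fun σ _ => ?_
  refine DifferentiableAt.const_smul ?_ _
  exact DifferentiableAt.fun_finsetProd fun i _ => hM _ _

theorem diff_inv {M : ℂ → Matrix d d ℂ} {w : ℂ}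
    (hM : ∀ i j, DifferentiableAt ℂ (fun x => M x i j) w) (h0 : (M w).det ≠ 0) (i j : d) :
    DifferentiableAt ℂ (fun x => (M x)⁻¹ i j) w := by
  have h : (fun x => (M x)⁻¹ i j) = fun x => ((M x).det)⁻¹ * (M x).adjugate i j := by
    funext x
    rw [Matrix.inv_def, Ring.inverse_eq_inv', Matrix.smul_apply, smul_eq_mul]
  rw [h]
  refine DifferentiableAt.mul ((diff_det hM).inv h0) ?_
  simp only [Matrix.adjugate_apply]
  refine diff_det fun a b => ?_
  by_cases ha : a = j
  · subst ha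
    simp only [Matrix.updateRow_self]
    exact differentiableAt_const _
  · simp only [Matrix.updateRow_ne ha]
    exact hM a b

/-- UNI: uniqueness -/
theorem uni : UniStmt := by
  intro d _ _ A U hU hcv Y Y' hY hY'
  rcases U.eq_empty_or_nonempty with rfl | ⟨w0, hw0⟩
  · exact ⟨0, fun w hw => absurd hw (Set.notMem_empty w)⟩
  have hdet : ∀ w ∈ U, (Y w).det ≠ 0 := fun w hw => (hY w hw).1.ne_zero
  have hinv : ∀ w ∈ U, Y w * (Y w)⁻¹ = 1 := fun w hw => Matrix.mul_nonsing_inv _ (hY w hw).1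
  have hinv' : ∀ w ∈ U, (Y w)⁻¹ * Y w = 1 := fun w hw => Matrix.nonsing_inv_mul _ (hY w hw).1
  -- derivative of the inverse
  have hZ : ∀ w ∈ U, ∀ i j, HasDerivAt (fun x => (Y x)⁻¹ i j) ((-((Y w)⁻¹ * A w)) i j) w := by
    intro w hw
    set Z' : Matrix d d ℂ := Matrix.of fun i j => deriv (fun x => (Y x)⁻¹ i j) w with hZ'
    have h1 : ∀ i j, HasDerivAt (fun x => (Y x)⁻¹ i j) (Z' i j) w := fun i j =>
      (diff_inv (fun a b => ((hY w hw).2 a b).differentiableAt) (hdet w hw) i j).hasDerivAt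
    have h2 := fun i j => hd_mul (M := Y) (N := fun x => (Y x)⁻¹) (hY w hw).2 h1 i j
    have h3 : A w * Y w * (Y w)⁻¹ + Y w * Z' = 0 := by
      ext i j
      have h4 : HasDerivAt (fun x => (Y x * (Y x)⁻¹) i j) 0 w := by
        refine (hasDerivAt_const w ((1 : Matrix d d ℂ) i j)).congr_of_eventuallyEq ?_
        filter_upwards [hU.mem_nhds hw] with x hx
        rw [hinv x hx]
      exact (h2 i j).unique h4
    have h5 : Z' = -((Y w)⁻¹ * A w) := by
      rw [Matrix.mul_assoc, hinv w hw, Matrix.mul_one] at h3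
      calc Z' = (Y w)⁻¹ * (Y w * Z') := by rw [← Matrix.mul_assoc, hinv' w hw, Matrix.one_mul]
        _ = (Y w)⁻¹ * (-A w) := by rw [eq_neg_of_add_eq_zero_right h3]
        _ = _ := by rw [Matrix.mul_neg]
    rw [← h5]
    exact h1
  have hG : ∀ w ∈ U, ∀ i j, HasDerivAt (fun x => ((Y x)⁻¹ * Y' x) i j) 0 w := by
    intro w hw i j
    have h1 := hd_mul (M := fun x => (Y x)⁻¹) (N := Y') (hZ w hw) (hY' w hw) i j
    have h2 : -((Y w)⁻¹ * A w) * Y' w + (Y w)⁻¹ * (A w * Y' w) = 0 := by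
      rw [Matrix.neg_mul, Matrix.mul_assoc, neg_add_cancel]
    rw [h2] at h1
    exact h1
  refine ⟨(Y w0)⁻¹ * Y' w0, fun w hw => ?_⟩
  have hconst : (Y w)⁻¹ * Y' w = (Y w0)⁻¹ * Y' w0 := by
    ext i j
    exact hU.is_const_of_deriv_eq_zero hcv.isPreconnected
      (f := fun x => ((Y x)⁻¹ * Y' x) i j)
      (fun x hx => ((hG x hx i j).differentiableAt).differentiableWithinAt)
      (fun x hx => (hG x hx i j).deriv) hw hw0
  rw [← hconst, ← Matrix.mul_assoc, hinv w hw, Matrix.one_mul]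

end Pool.Agent.MT100G.H47
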